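import Pool.Agent.helper97.AS.Spec

set_option autoImplicit false

namespace Pool.Agent.helper97.AS

open Pool.Agent.helper20.LB (Step F IsSq Same Bd co)

theorem ALX_val (f : ℤ → ℤ) (x M : ℤ) (h : ∀ y, x ≤ y → y ≤ x + M → f (y + 2) = f y + 1) (z : ℤ) (hz : x ≤ z) :
    ∀ k : ℕ, z + 2 * k ≤ x + M + 2 → f (z + 2 * k) = f z + k := by
  intro k
  induction k with
  | zero => intro _; simp
  | succ k ih =>
    intro hk
    push_cast at hk
    have h1 := ih (by omega)
    have h2 := h (z + 2 * k) (by omega) (by omega)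
    push_cast
    rw [show z + 2 * ((k : ℤ) + 1) = z + 2 * k + 2 by ring, h2, h1]
    ring

theorem ALX_valZ (f : ℤ → ℤ) (x M : ℤ) (h : ∀ y, x ≤ y → y ≤ x + M → f (y + 2) = f y + 1) (z k w : ℤ) (hz : x ≤ z)
    (hk : 0 ≤ k) (hw : w = z + 2 * k) (hkM : w ≤ x + M + 2) : f w = f z + k := by
  have h1 := ALX_val f x M h z hz k.toNat (by omega)
  rw [Int.toNat_of_nonneg hk, ← hw] at h1
  exact h1

/-- the set of the squares inside the stretch -/
noncomputable def ALX_A (x q : ℤ) : Finset (ℤ × ℤ) :=
  (Finset.Icc 1 q).image (fun k => (x + 2 * k, 2 * k)) ∪ (Finset.Icc 1 q).image (fun k => (x + 1 + 2 * k, 2 * k))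

theorem ALX_mem (x q : ℤ) (s : ℤ × ℤ) : s ∈ ALX_A x q ↔
    ∃ k, 1 ≤ k ∧ k ≤ q ∧ (s = (x + 2 * k, 2 * k) ∨ s = (x + 1 + 2 * k, 2 * k)) := by
  unfold ALX_A
  rw [Finset.mem_union, Finset.mem_image, Finset.mem_image]
  constructor
  · rintro (⟨k, hk, rfl⟩ | ⟨k, hk, rfl⟩)
    · exact ⟨k, (Finset.mem_Icc.mp hk).1, (Finset.mem_Icc.mp hk).2, Or.inl rfl⟩
    · exact ⟨k, (Finset.mem_Icc.mp hk).1, (Finset.mem_Icc.mp hk).2, Or.inr rfl⟩
  · rintro ⟨k, h1, h2, rfl | rfl⟩
    · exact Or.inl ⟨k, Finset.mem_Icc.mpr ⟨h1, h2⟩, rfl⟩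
    · exact Or.inr ⟨k, Finset.mem_Icc.mpr ⟨h1, h2⟩, rfl⟩

theorem ALX_card (x q : ℤ) (_hq : 1 ≤ q) : (ALX_A x q).card = 2 * q.toNat := by
  unfold ALX_A
  rw [Finset.card_union_of_disjoint, Finset.card_image_of_injective, Finset.card_image_of_injective, Int.card_Icc]
  · have : (q + 1 - 1) = q := by ring
    rw [this]
    ring
  · intro a b hab
    simp only [Prod.mk.injEq] at hab
    omega
  · intro a b hab
    simp only [Prod.mk.injEq] at hab
    omega
  · rw [Finset.disjoint_left]
    intro s h1 h2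
    obtain ⟨k, -, rfl⟩ := Finset.mem_image.mp h1
    obtain ⟨l, -, hl⟩ := Finset.mem_image.mp h2
    simp only [Prod.mk.injEq] at hl
    omega

/-- **ALX** -/
theorem ALX : ALX_stmt := by
  intro f x M n hf hx hn hMn hM4 hM5 halt
  obtain ⟨q, hq⟩ : ∃ q : ℤ, M = 4 * q + 1 := ⟨M / 4, by omega⟩
  have hq1 : 1 ≤ q := by omega
  have hval := ALX_valZ f x M halt
  -- one more square
  have hext : ∃ e : ℤ × ℤ, Sq f 0 n e ∧ ∀ k, 1 ≤ k → k ≤ q → e.2 ≠ 2 * k := by
    have hcase : x + M + 2 < n ∨ 1 ≤ x := by omega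
    rcases hcase with hc | hc
    · by_cases h1 : f (x + M + 2 + 1) = f (x + M + 2 - 1) + 1
      · refine ⟨(x + 2 * (q + 1), 2 * (q + 1)), ⟨by simp only; omega, by simp only; omega, by simp only; omega, ?_⟩, ?_⟩
        · show f (x + 2 * (q + 1) + 2 * (q + 1)) + f (x + 2 * (q + 1) - 2 * (q + 1)) - 2 * f (x + 2 * (q + 1)) = 0
          have e1 : x + 2 * (q + 1) + 2 * (q + 1) = x + M + 2 + 1 := by rw [hq]; ring
          have e2 : x + 2 * (q + 1) - 2 * (q + 1) = x := by ring
          have v1 := hval x (2 * q + 1) (x + M + 2 - 1) le_rfl (by omega) (by rw [hq]; ring) (by omega)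
          have v2 := hval x (q + 1) (x + 2 * (q + 1)) le_rfl (by omega) rfl (by omega)
          rw [e1, e2, h1, v1, v2]
          ring
        · intro k _ hk
          simp only
          omega
      · refine ⟨(x + M + 2, 1), ⟨by simp only; omega, by simp only; omega, by simp only; omega, ?_⟩, ?_⟩
        · show f (x + M + 2 + 1) + f (x + M + 2 - 1) - 2 * f (x + M + 2) = 0
          have s1 := hf (x + M + 2)
          have s2 := hf (x + M + 2 - 1)
          rw [show x + M + 2 - 1 + 1 = x + M + 2 by ring] at s2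
          omega
        · intro k _ hk
          simp only
          omega
    · by_cases h1 : f (x + 1) = f (x - 1) + 1
      · refine ⟨(x - 1 + 2 * (q + 1), 2 * (q + 1)), ⟨by simp only; omega, by simp only; omega, by simp only; omega, ?_⟩, ?_⟩
        · show f (x - 1 + 2 * (q + 1) + 2 * (q + 1)) + f (x - 1 + 2 * (q + 1) - 2 * (q + 1)) - 2 * f (x - 1 + 2 * (q + 1)) = 0
          have e2 : x - 1 + 2 * (q + 1) - 2 * (q + 1) = x - 1 := by ring
          have v1 := hval (x + 1) (2 * q + 1) (x - 1 + 2 * (q + 1) + 2 * (q + 1)) (by omega) (by omega) (by ring) (by omega)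
          have v2 := hval (x + 1) q (x - 1 + 2 * (q + 1)) (by omega) (by omega) (by ring) (by omega)
          rw [e2, v1, v2]
          omega
        · intro k _ hk
          simp only
          omega
      · refine ⟨(x, 1), ⟨by simp only; omega, by simp only; omega, by simp only; omega, ?_⟩, ?_⟩
        · show f (x + 1) + f (x - 1) - 2 * f x = 0
          have s1 := hf x
          have s2 := hf (x - 1)
          rw [show x - 1 + 1 = x by ring] at s2
          omega
        · intro k _ hk
          simp only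
          omega
  obtain ⟨e, he, her⟩ := hext
  have hpar : ∀ k, 1 ≤ k → k ≤ q → Same f (x + 2 * k, 2 * k) (x + 1 + 2 * k, 2 * k) → False := by
    intro k hk1 hk2 hS
    have a1 := hS.2 (-(2 * k)) (le_refl _) (by simp only; omega)
    have a2 := hS.2 (-(2 * k) + 1) (by simp only; omega) (by simp only; omega)
    simp only at a1 a2
    rw [show x + 2 * k + -(2 * k) = x by ring, show x + 1 + 2 * k + -(2 * k) = x + 1 by ring] at a1
    rw [show x + 2 * k + (-(2 * k) + 1) = x + 1 by ring, show x + 1 + 2 * k + (-(2 * k) + 1) = x + 2 by ring] at a2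
    have a3 := halt x le_rfl (by omega)
    omega
  have hsymm : ∀ s t : ℤ × ℤ, Same f s t → Same f t s := by
    intro s t h
    refine ⟨h.1.symm, fun j h1 h2 => (h.2 j ?_ ?_).symm⟩
    · rw [h.1]; exact h1
    · rw [h.1]; exact h2
  have hne : ∀ s ∈ ALX_A x q, s.2 ≠ e.2 := by
    intro s hs h
    obtain ⟨k, hk1, hk2, rfl | rfl⟩ := (ALX_mem x q s).mp hs
    · exact her k hk1 hk2 h.symm
    · exact her k hk1 hk2 h.symm
  refine ⟨insert e (ALX_A x q), ?_, ?_, ?_⟩
  · intro s hs
    rcases Finset.mem_insert.mp hs with rfl | hs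
    · exact he
    · obtain ⟨k, hk1, hk2, rfl | rfl⟩ := (ALX_mem x q s).mp hs
      · refine ⟨by simp only; omega, by simp only; omega, by simp only; omega, ?_⟩
        show f (x + 2 * k + 2 * k) + f (x + 2 * k - 2 * k) - 2 * f (x + 2 * k) = 0
        have v1 := hval x (2 * k) (x + 2 * k + 2 * k) le_rfl (by omega) (by ring) (by omega)
        have v2 := hval x k (x + 2 * k) le_rfl (by omega) rfl (by omega)
        rw [show x + 2 * k - 2 * k = x by ring, v1, v2]
        ring
      · refine ⟨by simp only; omega, by simp only; omega, by simp only; omega, ?_⟩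
        show f (x + 1 + 2 * k + 2 * k) + f (x + 1 + 2 * k - 2 * k) - 2 * f (x + 1 + 2 * k) = 0
        have v1 := hval (x + 1) (2 * k) (x + 1 + 2 * k + 2 * k) (by omega) (by omega) (by ring) (by omega)
        have v2 := hval (x + 1) k (x + 1 + 2 * k) (by omega) (by omega) rfl (by omega)
        rw [show x + 1 + 2 * k - 2 * k = x + 1 by ring, v1, v2]
        ring
  · intro s hs t ht hst
    rcases Finset.mem_insert.mp hs with hse | hs
    · rcases Finset.mem_insert.mp ht with hte | ht
      · rw [hse, hte]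
      · rw [hse] at hst
        exact absurd hst.1.symm (hne t ht)
    · rcases Finset.mem_insert.mp ht with hte | ht
      · rw [hte] at hst
        exact absurd hst.1 (hne s hs)
      · obtain ⟨k, hk1, hk2, hk⟩ := (ALX_mem x q s).mp hs
        obtain ⟨l, hl1, hl2, hl⟩ := (ALX_mem x q t).mp ht
        have h2 : s.2 = 2 * k := by rcases hk with rfl | rfl <;> rfl
        have h2' : t.2 = 2 * l := by rcases hl with rfl | rfl <;> rfl
        have hkl : k = l := by
          have := hst.1
          omega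
        subst hkl
        rcases hk with rfl | rfl
        · rcases hl with rfl | rfl
          · rfl
          · exact (hpar k hk1 hk2 hst).elim
        · rcases hl with rfl | rfl
          · exact (hpar k hk1 hk2 (hsymm _ _ hst)).elim
          · rfl
  · rw [Finset.card_insert_of_notMem, ALX_card x q hq1]
    · omega
    · intro h
      exact hne e h rfl

end Pool.Agent.helper97.AS
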